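import Pool.Agent.H37.CPX.Targets

/-!
# Row FRX of `cpx_modules` (helper23): the list of formulas for circuits
-/

namespace Pool.Agent.H23.CPX

open Finset Pool.Agent.H37.CPX
open Pool.Agent.H1.LP (Clause)

/-- the value of a bit -/
def bit (c : Bool) : ZMod 2 := if c then 1 else 0

theorem bit_not (c : Bool) : bit (!c) = bit c + 1 := by
  cases c <;> simp [bit] <;> decide

theorem bit_decide (t : ZMod 2) : bit (decide (t = 1)) = t := by
  revert t; decide

theorem add_ne {b c : ZMod 2} (h : c ≠ b) : sgn (b + c) = -1 := by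
  have : b + c ≠ 0 := by
    revert b c; decide
  rw [sgn, if_neg this]

/-- the clause with the literals `(V (t a, h a), not (b a))` -/
def cl {N q n K : ℕ} (V : Fin N × Fin q → Fin n) (t : Fin K → Fin N) (h : Fin K → Fin q)
    (b : Fin K → Bool) : Clause n :=
  univ.image (fun a : Fin K => (V (t a, h a), !(b a)))

theorem cl_card {N q n K : ℕ} (V : Fin N × Fin q → Fin n) (hV : Function.Injective V)
    (t : Fin K → Fin N) (ht : Function.Injective t) (h : Fin K → Fin q) (b : Fin K → Bool) :
    (cl V t h b).card = K ∧ ((cl V t h b).image Prod.fst).card = K := by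
  constructor
  · rw [cl, card_image_of_injective, card_univ, Fintype.card_fin]
    intro a a' haa
    have h1 := hV (congrArg Prod.fst haa)
    exact ht (congrArg Prod.fst h1)
  · rw [cl, image_image, card_image_of_injective, card_univ, Fintype.card_fin]
    intro a a' haa
    have h1 := hV haa
    exact ht (congrArg Prod.fst h1)

theorem cl_sat {N q n K : ℕ} (V : Fin N × Fin q → Fin n) (t : Fin K → Fin N) (h : Fin K → Fin q)
    (b : Fin K → Bool) (v : Fin n → Bool) :
    ¬ (cl V t h b).Sat v ↔ ∀ a, v (V (t a, h a)) = b a := by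
  unfold Pool.Agent.H1.LP.Clause.Sat cl
  constructor
  · intro hh a
    by_contra hne
    apply hh
    refine ⟨(V (t a, h a), !(b a)), mem_image_of_mem _ (mem_univ a), ?_⟩
    cases h1 : v (V (t a, h a)) <;> cases h2 : b a <;> simp_all
  · rintro hh ⟨l, hl, hv⟩
    rw [mem_image] at hl
    obtain ⟨a, _, rfl⟩ := hl
    have := hh a
    simp only at hv
    rw [this] at hv
    cases h2 : b a <;> simp_all

theorem cl_sub {N q n K K' : ℕ} (V : Fin N × Fin q → Fin n) (hV : Function.Injective V)
    (t : Fin K → Fin N) (h : Fin K → Fin q) (b : Fin K → Bool)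
    (t' : Fin K' → Fin N) (h' : Fin K' → Fin q) (b' : Fin K' → Bool)
    (he : cl V t h b = cl V t' h' b') (a : Fin K) : ∃ a', t' a' = t a := by
  have h1 : (V (t a, h a), !(b a)) ∈ cl V t h b := mem_image_of_mem _ (mem_univ a)
  rw [he, cl, mem_image] at h1
  obtain ⟨a', _, ha'⟩ := h1
  exact ⟨a', congrArg Prod.fst (hV (congrArg Prod.fst ha'))⟩

/-- flip the first bit if the sum is wrong -/
def fix {K : ℕ} (c : ZMod 2) (b : Fin (K + 1) → Bool) : Fin (K + 1) → Bool :=
  if ∑ a, bit (b a) ≠ c then b else Function.update b 0 (!(b 0))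

theorem fix_of {K : ℕ} (c : ZMod 2) (b : Fin (K + 1) → Bool) (h : ∑ a, bit (b a) ≠ c) :
    fix c b = b := if_pos h

theorem fix_ne {K : ℕ} (c : ZMod 2) (b : Fin (K + 1) → Bool) : ∑ a, bit (fix c b a) ≠ c := by
  by_cases h : ∑ a, bit (b a) ≠ c
  · rw [fix_of c b h]
    exact h
  · have h0 : fix c b = Function.update b 0 (!(b 0)) := if_neg h
    push Not at h
    rw [h0, Fin.sum_univ_succ]
    rw [Fin.sum_univ_succ] at h
    have h1 : ∀ i : Fin K, Function.update b 0 (!(b 0)) i.succ = b i.succ := by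
      intro i
      exact Function.update_of_ne (Fin.succ_ne_zero i) _ _
    simp only [h1, Function.update_self, bit_not]
    rw [← h]
    generalize bit (b 0) = u
    generalize ∑ i : Fin K, bit (b i.succ) = w
    revert u w
    decide

open Classical in
theorem pf_FRX : S_FRX := by
  intro N m k w0 q n s hq hw hn hsys
  -- the variables
  obtain ⟨V, hV⟩ : ∃ V : Fin N × Fin q → Fin n, Function.Injective V :=
    ⟨fun p => Fin.castLE hn (finProdFinEquiv p), fun p p' h =>
      finProdFinEquiv.injective (Fin.castLE_injective hn h)⟩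
  -- the enumerations of the equations
  have hte : ∀ j, ∃ t : Fin (k + 6) → Fin N, Function.Injective t ∧ univ.image t = s.S j := by
    intro j
    refine ⟨(s.S j).orderEmbOfFin (s.card_S j), ((s.S j).orderEmbOfFin (s.card_S j)).injective, ?_⟩
    exact Finset.image_orderEmbOfFin_univ _ _
  choose te hinj him using hte
  have hsum : ∀ j (g : Fin N → ZMod 2), ∑ i ∈ s.S j, g i = ∑ a, g (te j a) := by
    intro j g
    rw [← him j, sum_image (fun a _ a' _ h => hinj j h)]
  obtain ⟨e⟩ : Nonempty (Fin (m * 2 ^ (k + 6)) ≃ Fin m × (Fin (k + 6) → Bool)) :=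
    ⟨Fintype.equivOfCardEq (by simp)⟩
  let vy : PY N q → Fin n → Bool := fun y =>
    Function.extend V (fun p => decide (y p.1 p.2 = 1)) (fun _ => false)
  have hvy : ∀ y p, vy y (V p) = decide (y p.1 p.2 = 1) := fun y p =>
    hV.extend_apply _ _ p
  let cc' : Fin m × (Fin (k + 6) → Fin q) × (Fin (k + 6) → Bool) → Clause n :=
    fun p => cl V (te p.1) p.2.1 p.2.2
  let FY : PY N q → Finset (Clause n) := fun y =>
    (univ.filter (fun p => (cc' p).Sat (vy y))).image cc'
  have hmem : ∀ y j h b, (cl V (te j) h b) ∉ FY y → ¬ (cl V (te j) h b).Sat (vy y) := by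
    intro y j h b hno hs
    apply hno
    exact mem_image.mpr ⟨(j, h, b), mem_filter.mpr ⟨mem_univ _, hs⟩, rfl⟩
  have hSinj : ∀ j j', s.S j = s.S j' → j = j' := by
    intro j j' hS
    by_contra hne
    have h1 := s.exp {j, j'} (by rw [card_pair hne]; omega)
    have h2 : ({j, j'} : Finset (Fin m)).biUnion s.S = s.S j := by
      ext i
      simp only [mem_biUnion, mem_insert, mem_singleton]
      constructor
      · rintro ⟨l, rfl | rfl, hl⟩
        · exact hl
        · rw [hS]; exact hl
      · intro hi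
        exact ⟨j, Or.inl rfl, hi⟩
    rw [card_pair hne, h2, s.card_S] at h1
    omega
  have hcl : ∀ j j' h h' b b', cl V (te j) h b = cl V (te j') h' b' → j = j' := by
    intro j j' h h' b b' he
    apply hSinj
    rw [← him j, ← him j']
    apply Subset.antisymm
    · intro i hi
      obtain ⟨a, _, rfl⟩ := mem_image.mp hi
      obtain ⟨a', ha'⟩ := cl_sub V hV _ _ _ _ _ _ he a
      exact mem_image.mpr ⟨a', mem_univ _, ha'⟩
    · intro i hi
      obtain ⟨a, _, rfl⟩ := mem_image.mp hi
      obtain ⟨a', ha'⟩ := cl_sub V hV _ _ _ _ _ _ he.symm a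
      exact mem_image.mpr ⟨a', mem_univ _, ha'⟩
  refine ⟨fun x i => cl V (te (e i).1) (fun a => x (te (e i).1 a)) (fix (s.b (e i).1) (e i).2),
    FY, ?_, ?_, ?_, ?_⟩
  · intro x i
    exact cl_card V hV _ (hinj _) _ _
  · intro x v
    obtain ⟨j, hj⟩ := hsys (fun i => bit (v (V (i, x i))))
    rw [hsum j (fun i => bit (v (V (i, x i))))] at hj
    refine ⟨e.symm (j, fun a => v (V (te j a, x (te j a)))), ?_⟩
    beta_reduce
    rw [Equiv.apply_symm_apply, cl_sat]
    intro a
    dsimp only
    rw [fix_of _ _ hj]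
  · intro y
    refine ⟨?_, ?_, vy y, ?_⟩
    · refine le_trans card_image_le (le_trans (card_filter_le _ _) ?_)
      rw [card_univ, Fintype.card_prod, Fintype.card_prod, Fintype.card_fun, Fintype.card_fun,
        Fintype.card_fin, Fintype.card_fin, Fintype.card_fin, Fintype.card_bool, mul_pow,
        mul_comm (2 ^ (k + 6)) (q ^ (k + 6))]
    · intro C hC
      obtain ⟨p, _, rfl⟩ := mem_image.mp hC
      exact cl_card V hV _ (hinj _) _ _
    · intro C hC
      obtain ⟨p, hp, rfl⟩ := mem_image.mp hC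
      exact (mem_filter.mp hp).2
  · intro C
    by_cases hex : ∃ (x : PX N q) (i : Fin (m * 2 ^ (k + 6))),
        cl V (te (e i).1) (fun a => x (te (e i).1 a)) (fix (s.b (e i).1) (e i).2) = C
    · obtain ⟨x0, i0, h0⟩ := hex
      refine ⟨(e i0).1, ?_⟩
      rintro x ⟨i, hi⟩ y hy
      have hj : (e i).1 = (e i0).1 := hcl _ _ _ _ _ _ (hi.trans h0.symm)
      rw [← hj]
      rw [← hi] at hy
      have h1 := hmem y _ _ _ hy
      rw [cl_sat] at h1
      have h2 : ∀ a, pt x y (te (e i).1 a) = bit (fix (s.b (e i).1) (e i).2 a) := by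
        intro a
        rw [← h1 a, hvy, bit_decide]
        rfl
      rw [Sy.v, hsum]
      apply add_ne
      rw [sum_congr rfl (fun a _ => h2 a)]
      exact fix_ne _ _
    · obtain ⟨j, _⟩ := hsys 0
      refine ⟨j, ?_⟩
      rintro x ⟨i, hi⟩
      exact absurd ⟨x, i, hi⟩ hex

end Pool.Agent.H23.CPX
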